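import Pool.Agent.H77.AS.G

/-!
# Simultaneous minimal Sylow intersections: alternating and symmetric groups, and extensions

Let `F` be a nilpotent normal subgroup of the finite group `G` such that `G/F` is a direct product of alternating groups and symmetric groups
of degrees other than eight. For every choice of Sylow subgroups `H i` of `G` for distinct primes one `x` makes all `H i ∩ (H i)^x` minimal,
and all of them can be made to lie in prescribed intersections (up to conjugation in `H i`). If all the degrees are at least five, then the intersections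
can be chosen inside `F`; in particular (`F = 1`) in an alternating group of degree at least five and in a symmetric group of degree at
least five, except eight, one `x` makes all `H i ∩ (H i)^x` trivial. The symmetric group of degree eight is treated apart.
-/

set_option autoImplicit false

namespace Pool.Agent.Results.MP_e5a1a5_al.AlternatingQuotients

universe u v

open Equiv

/-- `H ∩ H^x`, where `H^x = x⁻¹ H x`. -/
def inter {G : Type u} [Group G] (H : Subgroup G) (x : G) : Subgroup G :=
  H ⊓ H.map (MulAut.conj x⁻¹).toMonoidHom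

/-- `K` is an alternating group of degree `d` or a symmetric group of degree `d ≠ 8`. -/
def IsFactor (d : ℕ) (K : Type) [Group K] : Prop :=
  Nonempty (K ≃* alternatingGroup (Fin d)) ∨ (d ≠ 8 ∧ Nonempty (K ≃* Perm (Fin d)))

theorem finite_factor {d : ℕ} {K : Type} [Group K] (h : IsFactor d K) : Finite K := by
  rcases h with ⟨⟨e⟩⟩ | ⟨-, ⟨e⟩⟩
  · exact Finite.of_equiv _ e.symm.toEquiv
  · exact Finite.of_equiv _ e.symm.toEquiv

theorem str_ppow {K : Type} [Group K] [Finite K] {p k : ℕ} (hp : p.Prime) (h : Nat.card K = p ^ k) :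
    Pool.H45.SY.Str K := by
  have : Fact p.Prime := ⟨hp⟩
  exact Pool.H45.SY.str_of_nilpotent _ (IsPGroup.isNilpotent (IsPGroup.of_card h))

theorem str_sym {n : ℕ} (h8 : n ≠ 8) : Pool.H45.SY.Str (Perm (Fin n)) := by
  by_cases h5 : 5 ≤ n
  · exact Pool.H77.AN.str_goodS (Pool.H77.AS.goodS_every (by rw [Fintype.card_fin]; exact h5)
      (by rw [Fintype.card_fin]; exact h8))
  · have hc : Nat.card (Perm (Fin n)) = n.factorial := by
      rw [Nat.card_eq_fintype_card, Fintype.card_perm, Fintype.card_fin]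
    have hn : n = 0 ∨ n = 1 ∨ n = 2 ∨ n = 3 ∨ n = 4 := by omega
    rcases hn with rfl | rfl | rfl | rfl | rfl
    · exact str_ppow (p := 2) (k := 0) Nat.prime_two (hc.trans (by decide))
    · exact str_ppow (p := 2) (k := 0) Nat.prime_two (hc.trans (by decide))
    · exact str_ppow (p := 2) (k := 1) Nat.prime_two (hc.trans (by decide))
    · exact Pool.H77.AS.str_small (Or.inl (hc.trans (by decide)))
    · exact Pool.H77.AS.str_small (Or.inr (Or.inr (hc.trans (by decide))))

theorem str_alt (n : ℕ) : Pool.H45.SY.Str (alternatingGroup (Fin n)) := by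
  by_cases h5 : 5 ≤ n
  · exact Pool.H77.AN.str_good (Pool.H77.AN.good_all (by rw [Fintype.card_fin]; exact h5))
  by_cases h2 : 2 ≤ n
  · have _ : Nontrivial (Fin n) := Fin.nontrivial_iff_two_le.2 h2
    have hc : 2 * Nat.card (alternatingGroup (Fin n)) = n.factorial := by
      have h1 := two_mul_nat_card_alternatingGroup (α := Fin n)
      rw [Nat.card_eq_fintype_card (α := Perm (Fin n)), Fintype.card_perm, Fintype.card_fin] at h1
      exact h1
    have hn : n = 2 ∨ n = 3 ∨ n = 4 := by omega
    rcases hn with rfl | rfl | rfl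
    · exact str_ppow (p := 2) (k := 0) Nat.prime_two (by
        rw [show (2 : ℕ).factorial = 2 by decide] at hc
        omega)
    · exact str_ppow (p := 3) (k := 1) Nat.prime_three (by
        rw [show (3 : ℕ).factorial = 6 by decide] at hc
        omega)
    · exact Pool.H77.AS.str_small (Or.inr (Or.inl (by
        rw [show (4 : ℕ).factorial = 24 by decide] at hc
        omega)))
  · have hsub : Subsingleton (Perm (Fin n)) := by
      have hn : n = 0 ∨ n = 1 := by omega
      rcases hn with rfl | rfl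
      · infer_instance
      · infer_instance
    exact str_ppow (p := 2) (k := 0) Nat.prime_two (by
      rw [pow_zero]
      exact Nat.card_unique)

theorem str_factor {d : ℕ} {K : Type} [Group K] (h : IsFactor d K) : Pool.H45.SY.Str K := by
  rcases h with ⟨⟨e⟩⟩ | ⟨hd, ⟨e⟩⟩
  · exact Pool.H77.AN.str_equiv e.symm (str_alt d)
  · exact Pool.H77.AN.str_equiv e.symm (str_sym hd)

theorem triv_factor {d : ℕ} {K : Type} [Group K] (h : IsFactor d K) (h5 : 5 ≤ d) : Pool.H77.AS.Triv K := by
  rcases h with ⟨⟨e⟩⟩ | ⟨hd, ⟨e⟩⟩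
  · exact Pool.H77.AS.triv_equiv e.symm (Pool.H77.AS.triv_of (Pool.H77.AN.good_all (by
      rw [Fintype.card_fin]
      exact h5)))
  · exact Pool.H77.AS.triv_equiv e.symm (Pool.H77.AS.triv_of (Pool.H77.AS.goodS_every (by
      rw [Fintype.card_fin]
      exact h5) (by
      rw [Fintype.card_fin]
      exact hd)))

theorem reach {G : Type u} [Group G] [Finite G] (F : Subgroup G) [F.Normal] (hF : Group.IsNilpotent F)
    {κ : Type} [Finite κ] (K : κ → Type) [∀ k, Group (K k)] (d : κ → ℕ) (hK : ∀ k, IsFactor (d k) (K k))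
    (e : G ⧸ F ≃* ((k : κ) → K k)) {ι : Type v} (p : ι → ℕ) (hp : ∀ i, (p i).Prime)
    (hinj : Function.Injective p) (H : ∀ i, Sylow (p i) G) (y : ι → G) :
    ∃ x : G, (∀ i, ∃ h ∈ (H i : Subgroup G),
      inter (H i : Subgroup G) x ≤ inter (H i : Subgroup G) (y i * h)) ∧
      ((∀ k, 5 ≤ d k) → ∀ i, inter (H i : Subgroup G) x ≤ F) := by
  have hfin : ∀ k, Finite (K k) := fun k => finite_factor (hK k)
  obtain ⟨H', y', hHy⟩ := Pool.H45.SY.family G p hinj H y
  by_cases h5 : ∀ k, 5 ≤ d k
  · have hT : Pool.H77.AS.Triv (G ⧸ F) :=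
      Pool.H77.AS.triv_equiv e.symm (Pool.H77.AS.triv_pi fun k => triv_factor (hK k) (h5 k))
    obtain ⟨x, hx⟩ := Pool.H77.AS.main_triv G F hF hT H' y'
    refine ⟨x, fun i => ?_, fun _ i => ?_⟩
    · obtain ⟨e1, e2⟩ := hHy i (hp i)
      have h1 := (hx ⟨p i, hp i⟩).2
      rw [e1, e2] at h1
      exact h1
    · obtain ⟨e1, -⟩ := hHy i (hp i)
      have h1 := (hx ⟨p i, hp i⟩).1
      rw [e1] at h1
      exact h1
  · have hS : Pool.H45.SY.Str (G ⧸ F) :=
      Pool.H77.AN.str_equiv e.symm (Pool.H77.AN.str_pi fun k => str_factor (hK k))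
    obtain ⟨x, hx⟩ := Pool.H45.SY.main_all G F hF hS H' y'
    refine ⟨x, fun i => ?_, fun h => absurd h h5⟩
    obtain ⟨e1, e2⟩ := hHy i (hp i)
    have h1 := hx ⟨p i, hp i⟩
    rw [e1, e2] at h1
    exact h1

theorem result :
    (∀ (G : Type u) [Group G] [Finite G] (F : Subgroup G) [F.Normal], Group.IsNilpotent F →
      ∀ (κ : Type) [Finite κ] (K : κ → Type) [∀ k, Group (K k)] (d : κ → ℕ), (∀ k, IsFactor (d k) (K k)) →
      Nonempty (G ⧸ F ≃* ((k : κ) → K k)) →
      ∀ (ι : Type v) (p : ι → ℕ), (∀ i, (p i).Prime) → Function.Injective p → ∀ H : ∀ i, Sylow (p i) G,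
        (∃ x : G, (∀ i, ∀ g : G,
          Nat.card (inter (H i : Subgroup G) x) ≤ Nat.card (inter (H i : Subgroup G) g) ∧
          (inter (H i : Subgroup G) g ≤ inter (H i : Subgroup G) x →
            inter (H i : Subgroup G) g = inter (H i : Subgroup G) x)) ∧
          ((∀ k, 5 ≤ d k) → ∀ i, inter (H i : Subgroup G) x ≤ F)) ∧
        ∀ y : ι → G, ∃ x : G, (∀ i, ∃ h ∈ (H i : Subgroup G),
          inter (H i : Subgroup G) x ≤ inter (H i : Subgroup G) (y i * h)) ∧
          ((∀ k, 5 ≤ d k) → ∀ i, inter (H i : Subgroup G) x ≤ F)) ∧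
    ∀ (ι : Type v) (p : ι → ℕ), (∀ i, (p i).Prime) → Function.Injective p →
      ∀ H : ∀ i, Sylow (p i) (Perm (Fin 8)), ∃ x : Perm (Fin 8), ∀ i, ∀ g : Perm (Fin 8),
        Nat.card (inter (H i : Subgroup (Perm (Fin 8))) x) ≤
          Nat.card (inter (H i : Subgroup (Perm (Fin 8))) g) ∧
        (inter (H i : Subgroup (Perm (Fin 8))) g ≤ inter (H i : Subgroup (Perm (Fin 8))) x →
          inter (H i : Subgroup (Perm (Fin 8))) g = inter (H i : Subgroup (Perm (Fin 8))) x) := by
  refine ⟨?_, fun ι p hp hinj H => ?_⟩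
  · intro G _ _ F _ hF κ _ K _ d hK he ι p hp hinj H
    obtain ⟨e⟩ := he
    refine ⟨?_, fun y => reach F hF K d hK e p hp hinj H y⟩
    have hmin : ∀ i, ∃ y : G, ∀ g : G,
        Nat.card (inter (H i : Subgroup G) y) ≤ Nat.card (inter (H i : Subgroup G) g) :=
      fun i => Finite.exists_min (fun g : G => Nat.card (inter (H i : Subgroup G) g))
    choose y hy using hmin
    obtain ⟨x, hx, hxF⟩ := reach F hF K d hK e p hp hinj H y
    have hcard : ∀ i g,
        Nat.card (inter (H i : Subgroup G) x) ≤ Nat.card (inter (H i : Subgroup G) g) := by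
      intro i g
      obtain ⟨h, hh, hle⟩ := hx i
      have h1 : Nat.card (inter (H i : Subgroup G) x) ≤
          Nat.card (inter (H i : Subgroup G) (y i * h)) := Subgroup.card_le_of_le hle
      have h2 : Nat.card (inter (H i : Subgroup G) (y i * h)) =
          Nat.card (inter (H i : Subgroup G) (y i)) := Pool.H45.SY.card_itr_mul _ _ _ hh
      rw [h2] at h1
      exact h1.trans (hy i g)
    refine ⟨x, fun i g => ⟨hcard i g, fun hle => ?_⟩, hxF⟩
    exact Subgroup.eq_of_le_of_card_ge hle (hcard i g)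
  · obtain ⟨H', y', hHy⟩ := Pool.H45.SY.family _ p hinj H (fun _ => 1)
    obtain ⟨x, hx⟩ := Pool.H77.AS.q1_8 (Fintype.card_fin 8) H'
    refine ⟨x, fun i g => ?_⟩
    obtain ⟨e1, -⟩ := hHy i (hp i)
    have h1 : Nat.card (inter (H' ⟨p i, hp i⟩ : Subgroup (Perm (Fin 8))) x) ≤
      Nat.card (inter (H' ⟨p i, hp i⟩ : Subgroup (Perm (Fin 8))) g) := hx ⟨p i, hp i⟩ g
    rw [e1] at h1
    exact ⟨h1, fun hle => Subgroup.eq_of_le_of_card_ge hle h1⟩

end Pool.Agent.Results.MP_e5a1a5_al.AlternatingQuotients
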