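import Pool.Agent.H45.SY.GR3

/-!
# Simultaneous minimal Sylow intersections: nilpotent normal subgroup with a good quotient

Let `F` be a nilpotent normal subgroup of the finite group `G`. If `G/F` is nilpotent, or solvable of
odd order, or any finite group in which for every choice of Sylow subgroups one element makes all
the intersections `S ∩ S^z` normal, then for every choice of Sylow subgroups `H i` of `G` for distinct
primes one element `x` makes all the intersections `H i ∩ (H i)^x` minimal, and any prescribed tuple of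
intersections can be reached.
-/

set_option autoImplicit false

namespace Pool.Agent.Results.MP_e5a1a5_al.NilpotentByStrong

universe u v

/-- `H ∩ H^x`, where `H^x = x⁻¹ H x`. -/
def inter {G : Type u} [Group G] (H : Subgroup G) (x : G) : Subgroup G :=
  H ⊓ H.map (MulAut.conj x⁻¹).toMonoidHom

theorem result (G : Type u) [Group G] [Finite G] (F : Subgroup G) [F.Normal]
    (hF : Group.IsNilpotent F)
    (hQ : Group.IsNilpotent (G ⧸ F) ∨ (Group.IsSolvable (G ⧸ F) ∧ Odd (Nat.card (G ⧸ F))) ∨
      ∀ S : ∀ q : Nat.Primes, Sylow (q : ℕ) (G ⧸ F), ∃ z : G ⧸ F, ∀ q,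
        (inter (S q : Subgroup (G ⧸ F)) z).Normal)
    {ι : Type v} (p : ι → ℕ) (hp : ∀ i, (p i).Prime) (hinj : Function.Injective p)
    (H : ∀ i, Sylow (p i) G) :
    (∀ y : ι → G, ∃ x : G, ∀ i, ∃ h ∈ (H i : Subgroup G),
      inter (H i : Subgroup G) x ≤ inter (H i : Subgroup G) (y i * h)) ∧
    ∃ x : G, ∀ i, ∀ g : G,
      Nat.card (inter (H i : Subgroup G) x) ≤ Nat.card (inter (H i : Subgroup G) g) ∧
      (inter (H i : Subgroup G) g ≤ inter (H i : Subgroup G) x →
        inter (H i : Subgroup G) g = inter (H i : Subgroup G) x) := by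
  have hS : Pool.H45.SY.Str (G ⧸ F) := by
    rcases hQ with h | ⟨h1, h2⟩ | h
    · exact Pool.H45.SY.str_of_nilpotent _ h
    · exact Pool.H45.SY.str_of_odd _ h2
    · exact h
  have hA : ∀ y : ι → G, ∃ x : G, ∀ i, ∃ h ∈ (H i : Subgroup G),
      inter (H i : Subgroup G) x ≤ inter (H i : Subgroup G) (y i * h) := by
    intro y
    obtain ⟨H', y', hHy⟩ := Pool.H45.SY.family G p hinj H y
    obtain ⟨x, hx⟩ := Pool.H45.SY.main_all G F hF hS H' y'
    refine ⟨x, fun i => ?_⟩
    obtain ⟨e1, e2⟩ := hHy i (hp i)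
    have h1 := hx ⟨p i, hp i⟩
    rw [e1, e2] at h1
    exact h1
  refine ⟨hA, ?_⟩
  have hmin : ∀ i, ∃ y : G, ∀ g : G,
      Nat.card (inter (H i : Subgroup G) y) ≤ Nat.card (inter (H i : Subgroup G) g) :=
    fun i => Finite.exists_min (fun g : G => Nat.card (inter (H i : Subgroup G) g))
  choose y hy using hmin
  obtain ⟨x, hx⟩ := hA y
  have hcard : ∀ i g,
      Nat.card (inter (H i : Subgroup G) x) ≤ Nat.card (inter (H i : Subgroup G) g) := by
    intro i g
    obtain ⟨h, hh, hle⟩ := hx i
    have h1 : Nat.card (inter (H i : Subgroup G) x) ≤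
        Nat.card (inter (H i : Subgroup G) (y i * h)) := Subgroup.card_le_of_le hle
    have h2 : Nat.card (inter (H i : Subgroup G) (y i * h)) =
        Nat.card (inter (H i : Subgroup G) (y i)) := Pool.H45.SY.card_itr_mul _ _ _ hh
    rw [h2] at h1
    exact h1.trans (hy i g)
  refine ⟨x, fun i g => ⟨hcard i g, fun hle => ?_⟩⟩
  exact Subgroup.eq_of_le_of_card_ge hle (hcard i g)

end Pool.Agent.Results.MP_e5a1a5_al.NilpotentByStrong
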