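import Pool.Agent.H77.Syl.LB

/-!
# Simultaneous minimal Sylow intersections in groups of odd order

For every finite solvable group `G` of odd order and every family of Sylow subgroups `H i` for
distinct primes `p i` there is one element `x` such that, for all `i`, the intersection of `H i`
with its conjugate by `x` is the largest normal `p i`-subgroup of `G` and is the least member of
the family of all intersections of `H i` with its conjugates.
-/

namespace Pool.Agent.Results.MP_e5a1a5_al.OddOrder

universe u v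

/-- `H ∩ H^x`, where `H^x = x⁻¹ H x`. -/
def inter {G : Type u} [Group G] (H : Subgroup G) (x : G) : Subgroup G :=
  H ⊓ H.map (MulAut.conj x⁻¹).toMonoidHom

theorem exists_all {G : Type u} [Group G] {ι : Type v} (p : ι → ℕ)
    (hinj : Function.Injective p) (H : ∀ i, Sylow (p i) G) :
    ∃ H' : ∀ q : Nat.Primes, Sylow (q : ℕ) G, ∀ (i : ι) (hq : (p i).Prime),
      (H' ⟨p i, hq⟩ : Subgroup G) = (H i : Subgroup G) := by
  classical
  have key : ∀ q : Nat.Primes, ∃ S : Sylow (q : ℕ) G, ∀ i, p i = (q : ℕ) →
      (S : Subgroup G) = (H i : Subgroup G) := by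
    intro q
    by_cases h : ∃ i, p i = (q : ℕ)
    · obtain ⟨i, hi⟩ := h
      obtain ⟨q, hq⟩ := q
      simp only at hi
      subst hi
      refine ⟨H i, ?_⟩
      intro j hj
      have : j = i := hinj hj
      subst this
      rfl
    · refine ⟨Classical.arbitrary _, ?_⟩
      intro i hi
      exact absurd ⟨i, hi⟩ h
  choose S hS using key
  exact ⟨S, fun i hq => hS ⟨p i, hq⟩ i rfl⟩

theorem result (G : Type u) [Group G] [Finite G] [Group.IsSolvable G] (hodd : Odd (Nat.card G))
    {ι : Type v} (p : ι → ℕ) (hp : ∀ i, (p i).Prime) (hinj : Function.Injective p)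
    (H : ∀ i, Sylow (p i) G) :
    ∃ x : G, ∀ i, (inter (H i : Subgroup G) x).Normal ∧
      (∀ K : Subgroup G, K.Normal → IsPGroup (p i) K → K ≤ inter (H i : Subgroup G) x) ∧
      IsLeast (Set.range fun g : G => inter (H i : Subgroup G) g) (inter (H i : Subgroup G) x) := by
  obtain ⟨H', hH'⟩ := exists_all p hinj H
  obtain ⟨x, hx⟩ := Pool.Agent.H49.Syl.main Pool.Agent.H77.Syl.lemB G hodd H'
  refine ⟨x, fun i => ?_⟩
  have hn : (inter (H i : Subgroup G) x).Normal := by
    have := hx ⟨p i, hp i⟩
    rw [hH' i (hp i)] at this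
    exact this
  refine ⟨hn, ?_, ⟨x, rfl⟩, ?_⟩
  · intro K hKn hK
    have hKH : K ≤ (H i : Subgroup G) := by
      have h1 : IsPGroup (p i) ((H i : Subgroup G) ⊔ K : Subgroup G) :=
        (H i).isPGroup'.to_sup_of_normal_right hK
      have h2 := (H i).is_maximal' h1 le_sup_left
      rw [← h2]
      exact le_sup_right
    refine le_inf hKH ?_
    intro y hy
    refine ⟨x * y * x⁻¹, hKH (hKn.conj_mem y hy x), ?_⟩
    simp [mul_assoc]
  rintro _ ⟨g, rfl⟩
  refine le_inf inf_le_left ?_
  intro y hy
  refine ⟨g * y * g⁻¹, ?_, ?_⟩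
  · exact (inf_le_left : inter (H i : Subgroup G) x ≤ _) (hn.conj_mem y hy g)
  · simp [mul_assoc]

end Pool.Agent.Results.MP_e5a1a5_al.OddOrder
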