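import Pool.Agent.H45.S2.MN
import Pool.Agent.H45.SY.GR3

/-!
# Simultaneous minimal Sylow intersections: arbitrary 2-structure

Let `F` be a nilpotent normal subgroup of the finite group `G` such that `G/F` is solvable. Suppose that the Sylow `q`-subgroups
of `G/F` are abelian for all odd primes `q`, or only that in every quotient of `G/F` the elements of order
`q` of a normal `q`-subgroup commute, for `q` odd. There is no condition on the Sylow 2-subgroups. Then for every choice of
Sylow subgroups `H i` of `G` for distinct primes one element `x` makes all the intersections `H i ∩ (H i)^x` minimal, and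
any prescribed tuple of intersections can be reached.
-/

set_option autoImplicit false

namespace Pool.Agent.Results.MP_e5a1a5_al.OddSylowAbelian

universe u v

/-- `H ∩ H^x`, where `H^x = x⁻¹ H x`. -/
def inter {G : Type u} [Group G] (H : Subgroup G) (x : G) : Subgroup G :=
  H ⊓ H.map (MulAut.conj x⁻¹).toMonoidHom

theorem result (G : Type u) [Group G] [Finite G] (F : Subgroup G) [F.Normal]
    (hF : Group.IsNilpotent F) (hS : Group.IsSolvable (G ⧸ F))
    (hQ : (∀ q : ℕ, q.Prime → q ≠ 2 → ∀ S : Sylow q (G ⧸ F), ∀ a ∈ S, ∀ b ∈ S, a * b = b * a) ∨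
      ∀ q : ℕ, q.Prime → q ≠ 2 → ∀ (N : Subgroup (G ⧸ F)) [N.Normal] (Q : Subgroup ((G ⧸ F) ⧸ N)),
        Q.Normal → IsPGroup q Q → ∀ a ∈ Q, ∀ b ∈ Q, a ^ q = 1 → b ^ q = 1 → a * b = b * a)
    {ι : Type v} (p : ι → ℕ) (hp : ∀ i, (p i).Prime) (hinj : Function.Injective p)
    (H : ∀ i, Sylow (p i) G) :
    (∀ y : ι → G, ∃ x : G, ∀ i, ∃ h ∈ (H i : Subgroup G),
      inter (H i : Subgroup G) x ≤ inter (H i : Subgroup G) (y i * h)) ∧
    ∃ x : G, ∀ i, ∀ g : G,
      Nat.card (inter (H i : Subgroup G) x) ≤ Nat.card (inter (H i : Subgroup G) g) ∧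
      (inter (H i : Subgroup G) g ≤ inter (H i : Subgroup G) x →
        inter (H i : Subgroup G) g = inter (H i : Subgroup G) x) := by
  classical
  have hker : ∀ g : G, QuotientGroup.mk' F g = 1 ↔ g ∈ F := by
    intro g
    rw [QuotientGroup.mk'_apply]
    exact QuotientGroup.eq_one_iff g
  have hsurj : Function.Surjective (QuotientGroup.mk' F) := QuotientGroup.mk'_surjective F
  have hG : Group.IsSolvable G := by
    have h1 : Group.IsNilpotent F := hF
    exact (Group.isSolvable_iff_subgroup_quotient F).2 ⟨inferInstance, hS⟩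
  have hHQ : Pool.H45.S2.HQ F := by
    rcases hQ with hQ | hQ
    · apply Pool.H45.S2.HQ_of_sylow
      intro q hq hq2
      have := Fact.mk hq
      obtain ⟨S⟩ : Nonempty (Sylow q G) := inferInstance
      refine ⟨S, ?_⟩
      intro a ha b hb
      have hmem : ∀ c ∈ S, QuotientGroup.mk' F c ∈ S.mapSurjective hsurj := by
        intro c hc
        change QuotientGroup.mk' F c ∈ ((S.mapSurjective hsurj : Sylow q (G ⧸ F)) : Subgroup (G ⧸ F))
        rw [Sylow.coe_mapSurjective hsurj S]
        exact ⟨c, hc, rfl⟩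
      have h1 := hQ q hq hq2 (S.mapSurjective hsurj) _ (hmem a ha) _ (hmem b hb)
      rw [← hker, map_mul, map_inv, map_mul, map_mul, inv_mul_eq_one]
      exact h1.symm
    · intro q hq hq2 N L hN hL hFN hLq a ha b hb haN hbN
      have hNn : (N.map (QuotientGroup.mk' F)).Normal := hN.map _ hsurj
      have hLn : (L.map (QuotientGroup.mk' F)).Normal := hL.map _ hsurj
      have hsurj' : Function.Surjective (QuotientGroup.mk' (N.map (QuotientGroup.mk' F))) :=
        QuotientGroup.mk'_surjective _
      have hker' : ∀ g : G, QuotientGroup.mk' (N.map (QuotientGroup.mk' F)) (QuotientGroup.mk' F g) = 1 ↔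
          g ∈ N := by
        intro g
        rw [QuotientGroup.mk'_apply, QuotientGroup.eq_one_iff, Subgroup.mem_map]
        constructor
        · rintro ⟨c, hc, hcg⟩
          have h1 : c⁻¹ * g ∈ F := by
            rw [← hker, map_mul, map_inv, inv_mul_eq_one]
            exact hcg
          have := N.mul_mem hc (hFN h1)
          rwa [mul_inv_cancel_left] at this
        · intro hg
          exact ⟨g, hg, rfl⟩
      have h1 := hQ q hq hq2 (N.map (QuotientGroup.mk' F))
        ((L.map (QuotientGroup.mk' F)).map (QuotientGroup.mk' (N.map (QuotientGroup.mk' F))))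
        (hLn.map _ hsurj') (by
          rintro ⟨_, _, ⟨c, hc, rfl⟩, rfl⟩
          obtain ⟨n, hn⟩ := hLq c hc
          refine ⟨n, ?_⟩
          apply Subtype.ext
          change (QuotientGroup.mk' (N.map (QuotientGroup.mk' F)) (QuotientGroup.mk' F c)) ^ q ^ n = 1
          rw [← map_pow, ← map_pow, hker']
          exact hn)
        _ ⟨_, ⟨a, ha, rfl⟩, rfl⟩ _ ⟨_, ⟨b, hb, rfl⟩, rfl⟩
        (by rw [← map_pow, ← map_pow, hker']; exact haN)
        (by rw [← map_pow, ← map_pow, hker']; exact hbN)
      rw [← hker']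
      simp only [map_mul, map_inv]
      rw [h1, inv_mul_eq_one]
  have hA : ∀ y : ι → G, ∃ x : G, ∀ i, ∃ h ∈ (H i : Subgroup G),
      inter (H i : Subgroup G) x ≤ inter (H i : Subgroup G) (y i * h) := by
    intro y
    obtain ⟨H', y', hHy⟩ := Pool.H45.SY.family G p hinj H y
    obtain ⟨x, h, hh, hx⟩ := Pool.H45.S2.MN (Nat.card G) G rfl hG F hF hHQ H' y'
    refine ⟨x, fun i => ?_⟩
    obtain ⟨e1, e2⟩ := hHy i (hp i)
    refine ⟨h ⟨p i, hp i⟩, ?_, ?_⟩
    · rw [← e1]
      exact hh _
    · intro a ha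
      have h1 := (Pool.H45.SY.mem_itr (H i : Subgroup G) x a).1 ha
      refine (Pool.H45.SY.mem_itr (H i : Subgroup G) (y i * h ⟨p i, hp i⟩) a).2 ⟨h1.1, ?_⟩
      have h2 := hx ⟨p i, hp i⟩ a
      have m1 : ∀ g : G, g ∈ H' ⟨p i, hp i⟩ ↔ g ∈ (H i : Subgroup G) := by
        intro g
        rw [← e1]
        rfl
      rw [m1, m1, m1, e2] at h2
      exact h2 h1.1 h1.2
  refine ⟨hA, ?_⟩
  have hmin : ∀ i, ∃ y : G, ∀ g : G,
      Nat.card (inter (H i : Subgroup G) y) ≤ Nat.card (inter (H i : Subgroup G) g) :=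
    fun i => Finite.exists_min (fun g : G => Nat.card (inter (H i : Subgroup G) g))
  choose y hy using hmin
  obtain ⟨x, hx⟩ := hA y
  have hcard : ∀ i g,
      Nat.card (inter (H i : Subgroup G) x) ≤ Nat.card (inter (H i : Subgroup G) g) := by
    intro i g
    obtain ⟨h, hh, hle⟩ := hx i
    have h1 : Nat.card (inter (H i : Subgroup G) x) ≤
        Nat.card (inter (H i : Subgroup G) (y i * h)) := Subgroup.card_le_of_le hle
    have h2 : Nat.card (inter (H i : Subgroup G) (y i * h)) =
        Nat.card (inter (H i : Subgroup G) (y i)) := Pool.H45.SY.card_itr_mul _ _ _ hh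
    rw [h2] at h1
    exact h1.trans (hy i g)
  refine ⟨x, fun i g => ⟨hcard i g, fun hle => ?_⟩⟩
  exact Subgroup.eq_of_le_of_card_ge hle (hcard i g)

end Pool.Agent.Results.MP_e5a1a5_al.OddSylowAbelian
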